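import Pool.Agent.Y305.WD.Stm

/-! Job WD-PART: clopen partition of the complement of a closed set in a countable compact metric
space (helper592). -/

set_option autoImplicit false

open Filter Topology Set

namespace Pool.Agent.Y592.WD

open Pool.Agent.Y305.WD

universe u

theorem part : S_PART.{u} := by
  classical
  intro K _ _ _ F hF
  rcases F.eq_empty_or_nonempty with rfl | hne
  · refine ⟨fun j => if j = 0 then univ else ∅, fun j => ?_, fun j => disjoint_empty _,
      fun i j hij => ?_, fun x _ => ⟨0, ?_⟩, fun O _ _ => ⟨1, fun j hj => ?_⟩⟩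
    · dsimp only
      split_ifs
      · exact isClopen_univ
      · exact isClopen_empty
    · dsimp only
      split_ifs with h1 h2
      · exact absurd (h1.trans h2.symm) hij
      · exact disjoint_empty _
      · exact empty_disjoint _
      · exact disjoint_empty _
    · simp
    · dsimp only
      rw [if_neg (by omega)]
      exact empty_subset _
  -- the distance and the thresholds
  obtain ⟨ρ, hρ⟩ : ∃ ρ : K → ℝ, ρ = fun x => Metric.infDist x F := ⟨_, rfl⟩
  have hcont : Continuous ρ := by
    rw [hρ]
    exact Metric.continuous_infDist_pt F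
  have hpos : ∀ x, x ∉ F ↔ 0 < ρ x := by
    intro x
    rw [hρ]
    exact hF.notMem_iff_infDist_pos hne
  have hcount : (range ρ).Countable := countable_range ρ
  have hthr : ∀ j : ℕ, ∃ r : ℝ, r ∉ range ρ ∧ 1 / ((j : ℝ) + 2) < r ∧ r < 1 / ((j : ℝ) + 1) := by
    intro j
    have hlt : 1 / ((j : ℝ) + 2) < 1 / ((j : ℝ) + 1) :=
      one_div_lt_one_div_of_lt (by positivity) (by linarith)
    obtain ⟨r, hr1, hr2⟩ := (hcount.dense_compl ℝ).exists_between hlt
    exact ⟨r, hr1, hr2.1, hr2.2⟩
  choose r hr1 hr2 hr3 using hthr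
  have hr0 : ∀ j, 0 < r j := fun j => lt_trans (by positivity) (hr2 j)
  have hanti : ∀ j, r (j + 1) < r j := by
    intro j
    have h1 := hr3 (j + 1)
    have h2 := hr2 j
    push_cast at h1
    have e : (j : ℝ) + 1 + 1 = j + 2 := by ring
    rw [e] at h1
    exact h1.trans h2
  have hanti' : ∀ i j, i ≤ j → r j ≤ r i := fun i j hij => antitone_nat_of_succ_le
    (fun n => (hanti n).le) hij
  let G : ℕ → Set K := fun j => {x | r j < ρ x}
  have hG : ∀ j, IsClopen (G j) := by
    intro j
    constructor
    · have : G j = {x | r j ≤ ρ x} := by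
        ext x
        show r j < ρ x ↔ r j ≤ ρ x
        constructor
        · exact le_of_lt
        · intro h
          exact lt_of_le_of_ne h fun he => hr1 j ⟨x, he.symm⟩
      rw [this]
      exact isClosed_le continuous_const hcont
    · exact isOpen_lt continuous_const hcont
  have hGmono : ∀ i j, i ≤ j → G i ⊆ G j := fun i j hij x hx =>
    lt_of_le_of_lt (hanti' i j hij) hx
  let P : ℕ → Set K := fun j => G j \ (if j = 0 then ∅ else G (j - 1))
  have hPG : ∀ j, P j ⊆ G j := fun j => sdiff_subset
  have hPn : ∀ i j, i < j → ∀ x ∈ P j, x ∉ G i := by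
    intro i j hij x hx hxi
    have h1 : x ∉ (if j = 0 then (∅ : Set K) else G (j - 1)) := hx.2
    rw [if_neg (by omega)] at h1
    exact h1 (hGmono i (j - 1) (by omega) hxi)
  have hdis : ∀ i j, i < j → Disjoint (P i) (P j) := by
    intro i j hij
    rw [Set.disjoint_left]
    intro x hxi hxj
    exact hPn i j hij x hxj (hPG i hxi)
  refine ⟨P, fun j => ?_, fun j => ?_, fun i j hij => ?_, fun x hx => ?_, fun O hO hFO => ?_⟩
  · refine (hG j).diff ?_
    split_ifs
    · exact isClopen_empty
    · exact hG _
  · rw [Set.disjoint_left]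
    intro x hx hxF
    have h1 : r j < ρ x := hPG j hx
    have h2 : 0 < ρ x := (hr0 j).trans h1
    exact (hpos x).2 h2 hxF
  · rcases lt_or_gt_of_ne hij with h | h
    · exact hdis i j h
    · exact (hdis j i h).symm
  · have h1 := (hpos x).1 hx
    have h2 : ∃ j, x ∈ G j := by
      obtain ⟨n, hn⟩ := exists_nat_one_div_lt h1
      exact ⟨n, (hr3 n).trans hn⟩
    refine ⟨Nat.find h2, Nat.find_spec h2, ?_⟩
    split_ifs with h3
    · exact notMem_empty x
    · exact Nat.find_min h2 (by omega)
  · -- an open neighbourhood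
    rcases (Oᶜ).eq_empty_or_nonempty with h0 | h0
    · refine ⟨0, fun j _ => ?_⟩
      rw [compl_empty_iff.1 h0]
      exact subset_univ _
    · obtain ⟨y, hy, hmin⟩ := hO.isClosed_compl.isCompact.exists_isMinOn h0 hcont.continuousOn
      have hyF : y ∉ F := fun h => hy (hFO h)
      have hy0 := (hpos y).1 hyF
      obtain ⟨n, hn⟩ := exists_nat_one_div_lt hy0
      refine ⟨n + 1, fun j hj x hx => ?_⟩
      by_contra hxO
      have h1 : ρ y ≤ ρ x := hmin hxO
      exact hPn n j (by omega) x hx (lt_of_lt_of_le ((hr3 n).trans hn) h1)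

end Pool.Agent.Y592.WD
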